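import Pool.Agent.R890.FF.Alg
import Pool.Agent.H160R2.CC.Basic

set_option autoImplicit false
set_option linter.unusedSectionVars false

/-!
# The edges of the Petersen graph as elements of a group of order 64

The group is the group of the sets of edges of the Petersen graph modulo the edge cuts. An edge is
coded by the number whose binary digits tell which of six basic cycles contain it. A cycle-continuous
map to the Petersen graph is a flow whose values are among the codes of the fifteen edges.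
-/

namespace Pool.Agent.R545.PC

open Finset Pool.Agent.TH362.TF
open Pool.Agent.TH676.A (Alg Ex2 FlowOn bd)

/-- the numbers smaller than 64 with the addition without carry -/
structure G where
  v : ℕ
  h : v < 64
  deriving DecidableEq

namespace G

theorem ext' {x y : G} (h : x.v = y.v) : x = y := by
  cases x; cases y; simp only at h; subst h; rfl

instance : Zero G := ⟨⟨0, by norm_num⟩⟩
instance : Add G := ⟨fun x y => ⟨x.v ^^^ y.v, Nat.xor_lt_two_pow (n := 6) x.h y.h⟩⟩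
instance : Neg G := ⟨fun x => x⟩

theorem v_add (x y : G) : (x + y).v = x.v ^^^ y.v := rfl
theorem v_zero : (0 : G).v = 0 := rfl

instance : AddCommGroup G where
  add_assoc x y z := G.ext' (Nat.xor_assoc _ _ _)
  zero_add x := G.ext' (Nat.zero_xor _)
  add_zero x := G.ext' (Nat.xor_zero _)
  nsmul := nsmulRec
  zsmul := zsmulRec
  neg_add_cancel x := G.ext' (Nat.xor_self _)
  add_comm x y := G.ext' (Nat.xor_comm _ _)

end G

theorem ex2G : Ex2 G := fun x => G.ext' (Nat.xor_self _)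

/-- the code of an edge -/
def inA (n : ℕ) : Bool := Nat.testBit 0x2109014005113e n

/-- the codes of the edges -/
def Ag (x : G) : Prop := inA x.v = true

instance : DecidablePred Ag := fun x => by unfold Ag; infer_instance

/-- the code of the edge `e` -/
def ec : Fin 15 → ℕ := ![43, 3, 1, 5, 53, 30, 40, 2, 4, 48, 18, 8, 16, 12, 32]

theorem ec_lt : ∀ e, ec e < 64 := by decide

theorem dec : ∀ n < 64, inA n = true → ∃ e : Fin 15, ec e = n := by decide +kernel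

/-! ### Symmetries -/

/-- the images of the basis under two automorphisms -/
def mt : Fin 2 → Fin 6 → ℕ := ![![5, 4, 48, 16, 12, 18], ![2, 1, 16, 32, 4, 8]]

/-- a summand of the image -/
def sel (n i c : ℕ) : ℕ := bif n.testBit i then c else 0

/-- the image of a code -/
def ap (g : Fin 2) (n : ℕ) : ℕ :=
  sel n 0 (mt g 0) ^^^ sel n 1 (mt g 1) ^^^ sel n 2 (mt g 2) ^^^ sel n 3 (mt g 3) ^^^
    sel n 4 (mt g 4) ^^^ sel n 5 (mt g 5)

theorem ap_lt : ∀ g, ∀ n < 64, ap g n < 64 := by decide +kernel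

theorem ap_A : ∀ g, ∀ n < 64, inA n = true → inA (ap g n) = true := by decide +kernel

set_option maxRecDepth 100000 in
theorem ap_add : ∀ g, ∀ a < 64, ∀ b < 64, ap g (a ^^^ b) = ap g a ^^^ ap g b := by
  decide +kernel

theorem ap_zero : ∀ g, ap g 0 = 0 := by decide +kernel

/-- the automorphism as a map of the group -/
def T (g : Fin 2) : G →+ G where
  toFun x := ⟨ap g x.v, ap_lt g x.v x.h⟩
  map_zero' := G.ext' (ap_zero g)
  map_add' x y := G.ext' (ap_add g x.v x.h y.v y.h)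

/-- a word in the two automorphisms -/
def W : List (Fin 2) → (G →+ G)
  | [] => AddMonoidHom.id G
  | g :: w => (W w).comp (T g)

/-- a word applied to a code -/
def wd : List (Fin 2) → ℕ → ℕ
  | [], n => n
  | g :: w, n => wd w (ap g n)

theorem W_v : ∀ (w : List (Fin 2)) (x : G), (W w x).v = wd w x.v
  | [], _ => rfl
  | g :: w, x => W_v w (T g x)

theorem W_A : ∀ (w : List (Fin 2)) (x : G), Ag x → Ag (W w x)
  | [], _, h => h
  | g :: w, x, h => W_A w (T g x) (ap_A g x.v x.h h)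

/-- words which move a pair to the standard pair -/
def TW : List (List (Fin 2)) :=
  [[], [0], [1], [0, 0], [0, 1], [1, 0], [0, 0, 0], [0, 0, 1], [0, 1, 0], [1, 0, 0], [1, 0, 1],
   [0, 0, 0, 0], [0, 0, 0, 1], [0, 0, 1, 0], [0, 1, 0, 0], [0, 1, 0, 1], [1, 0, 0, 0], [1, 0, 0,
   1], [1, 0, 1, 0], [0, 0, 0, 0, 1], [0, 0, 0, 1, 0], [0, 0, 1, 0, 0], [0, 0, 1, 0, 1], [0, 1,
   0, 0, 0], [0, 1, 0, 0, 1], [0, 1, 0, 1, 0], [1, 0, 0, 0, 1], [1, 0, 0, 1, 0], [1, 0, 1, 0,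
   0], [1, 0, 1, 0, 1], [0, 0, 0, 0, 1, 0], [0, 0, 0, 1, 0, 1], [0, 0, 1, 0, 0, 0], [0, 0, 1, 0,
   0, 1], [0, 1, 0, 0, 0, 1], [0, 1, 0, 0, 1, 0], [0, 1, 0, 1, 0, 0], [0, 1, 0, 1, 0, 1], [1, 0,
   0, 0, 1, 0], [1, 0, 0, 1, 0, 0], [1, 0, 0, 1, 0, 1], [1, 0, 1, 0, 0, 1], [1, 0, 1, 0, 1, 0],
   [0, 0, 0, 0, 1, 0, 1], [0, 0, 1, 0, 0, 0, 1], [0, 0, 1, 0, 1, 0, 0], [0, 1, 0, 0, 0, 1, 0],
   [0, 1, 0, 0, 1, 0, 1], [0, 1, 0, 1, 0, 0, 1], [1, 0, 0, 0, 1, 0, 1], [1, 0, 0, 1, 0, 0, 0],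
   [1, 0, 0, 1, 0, 0, 1], [1, 0, 1, 0, 0, 1, 0], [1, 0, 1, 0, 1, 0, 0], [1, 0, 1, 0, 1, 0, 1],
   [0, 0, 1, 0, 0, 0, 1, 0], [0, 1, 0, 0, 0, 1, 0, 1], [1, 0, 0, 1, 0, 0, 0, 1], [1, 0, 1, 0, 1,
   0, 0, 1], [0, 0, 1, 0, 0, 0, 1, 0, 1]]

/-- words which move the standard pair to a pair -/
def FW : List (List (Fin 2)) :=
  [[], [0], [1], [0, 0], [1, 0], [0, 0, 0], [0, 0, 1], [1, 0, 0], [0, 0, 0, 0], [0, 0, 0, 1],
   [0, 0, 1, 0], [1, 0, 0, 0], [1, 0, 0, 1], [0, 0, 0, 0, 1], [0, 0, 0, 1, 0], [0, 0, 1, 0, 0],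
   [0, 0, 1, 0, 1], [1, 0, 0, 0, 0], [1, 0, 0, 0, 1], [1, 0, 0, 1, 0], [0, 0, 0, 0, 1, 0], [0,
   0, 0, 1, 0, 0], [0, 0, 0, 1, 0, 1], [0, 0, 1, 0, 0, 0], [0, 0, 1, 0, 0, 1], [0, 0, 1, 0, 1,
   0], [1, 0, 0, 0, 0, 1], [1, 0, 0, 0, 1, 0], [1, 0, 0, 1, 0, 0], [1, 0, 0, 1, 0, 1], [0, 0, 0,
   0, 1, 0, 0], [0, 0, 0, 0, 1, 0, 1], [0, 0, 0, 1, 0, 0, 0], [0, 0, 0, 1, 0, 0, 1], [0, 0, 0,
   1, 0, 1, 0], [0, 0, 1, 0, 0, 0, 0], [0, 0, 1, 0, 0, 0, 1], [0, 0, 1, 0, 0, 1, 0], [0, 0, 1,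
   0, 1, 0, 0], [0, 0, 1, 0, 1, 0, 1], [1, 0, 0, 0, 1, 0, 0], [1, 0, 0, 1, 0, 0, 0], [1, 0, 0,
   1, 0, 1, 0], [0, 0, 0, 0, 1, 0, 0, 1], [0, 0, 0, 0, 1, 0, 1, 0], [0, 0, 0, 1, 0, 0, 0, 0],
   [0, 0, 0, 1, 0, 0, 1, 0], [0, 0, 0, 1, 0, 1, 0, 0], [0, 0, 0, 1, 0, 1, 0, 1], [0, 0, 1, 0, 0,
   0, 1, 0], [0, 0, 1, 0, 1, 0, 0, 0], [1, 0, 0, 0, 1, 0, 0, 1], [1, 0, 0, 1, 0, 0, 0, 0], [1,
   0, 0, 1, 0, 0, 0, 1], [0, 0, 0, 0, 1, 0, 1, 0, 1], [0, 0, 0, 1, 0, 0, 0, 0, 1], [0, 0, 1, 0,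
   0, 0, 1, 0, 0], [0, 0, 1, 0, 1, 0, 0, 0, 1], [1, 0, 0, 1, 0, 0, 0, 1, 0], [0, 0, 1, 0, 0, 0,
   1, 0, 0, 1]]

set_option maxRecDepth 100000 in
theorem toR : ∀ a < 64, inA a = true → ∀ b < 64, inA b = true → inA (a ^^^ b) = true →
    TW.any (fun w => Nat.beq (wd w a) 43 && Nat.beq (wd w b) 53) = true := by
  decide +kernel

set_option maxRecDepth 100000 in
theorem frR : ∀ a < 64, inA a = true → ∀ b < 64, inA b = true → inA (a ^^^ b) = true →
    FW.any (fun w => Nat.beq (wd w 43) a && Nat.beq (wd w 53) b) = true := by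
  decide +kernel

theorem algPC : Alg Ag where
  two := ex2G
  zero := by
    unfold Ag
    decide
  hom a b a' b' ha hb hab ha' hb' hab' := by
    have h1 := toR a.v a.h ha b.v b.h hb hab
    have h2 := frR a'.v a'.h ha' b'.v b'.h hb' hab'
    rw [List.any_eq_true] at h1 h2
    obtain ⟨w, _, h3⟩ := h1
    obtain ⟨u, _, h4⟩ := h2
    rw [Bool.and_eq_true] at h3 h4
    have k1 := Nat.eq_of_beq_eq_true h3.1
    have k2 := Nat.eq_of_beq_eq_true h3.2
    have k3 := Nat.eq_of_beq_eq_true h4.1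
    have k4 := Nat.eq_of_beq_eq_true h4.2
    refine ⟨(W u).comp (W w), fun x hx => W_A u _ (W_A w x hx), G.ext' ?_, G.ext' ?_⟩
    · rw [AddMonoidHom.comp_apply, W_v, W_v, k1, k3]
    · rw [AddMonoidHom.comp_apply, W_v, W_v, k2, k4]

/-- the codes of the edges between the vertices of the Petersen graph -/
def tab : Fin 10 → Fin 10 → ℕ :=
  ![![43, 43, 43, 43, 53, 30, 43, 43, 43, 43], ![43, 43, 3, 43, 43, 43, 40, 43, 43, 43],
    ![43, 3, 43, 1, 43, 43, 43, 2, 43, 43], ![43, 43, 1, 43, 5, 43, 43, 43, 4, 43],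
    ![53, 43, 43, 5, 43, 43, 43, 43, 43, 48], ![30, 43, 43, 43, 43, 43, 43, 18, 12, 43],
    ![43, 40, 43, 43, 43, 43, 43, 43, 8, 32], ![43, 43, 2, 43, 43, 18, 43, 43, 43, 16],
    ![43, 43, 43, 4, 43, 12, 8, 43, 43, 43], ![43, 43, 43, 43, 48, 43, 32, 16, 43, 43]]

theorem tab_lt : ∀ k l, tab k l < 64 := by decide +kernel

theorem tab_A : ∀ k l, inA (tab k l) = true := by decide +kernel

theorem tab_sym : ∀ k l, tab k l = tab l k := by decide +kernel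

theorem tab_sum : ∀ k, tab k (nb k 0) ^^^ tab k (nb k 1) ^^^ tab k (nb k 2) = 0 := by
  decide +kernel

/-- the flow of the Petersen graph -/
theorem petPC : Pool.Agent.R890.FF.Pet Ag (fun k l => (⟨tab k l, tab_lt k l⟩ : G)) where
  sym k l := G.ext' (tab_sym k l)
  al k l := tab_A k l
  sum k := G.ext' (tab_sum k)

/-- the embedding of the group of order four -/
def emb : F →+ G where
  toFun x := ⟨(if x.1 = 1 then 43 else 0) ^^^ (if x.2 = 1 then 53 else 0), by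
    revert x; decide⟩
  map_zero' := by
    apply G.ext'
    decide
  map_add' x y := by
    apply G.ext'
    rw [G.v_add]
    revert x y
    decide

theorem emb_A : ∀ x : F, x ≠ 0 → Ag (emb x) := by
  unfold Ag
  decide

/-! ### Cycles of the Petersen graph -/

/-- the three edges at the vertex `k` of the Petersen graph -/
def pe : Fin 10 → Fin 3 → Fin 15 :=
  ![![0, 4, 5], ![1, 0, 6], ![2, 1, 7], ![3, 2, 8], ![4, 3, 9], ![10, 13, 5], ![11, 14, 6],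
    ![12, 10, 7], ![13, 11, 8], ![14, 12, 9]]

theorem pet_inc : ∀ (k : Fin 10) (e : Fin 15),
    ((if (![0, 1, 2, 3, 4, 0, 1, 2, 3, 4, 5, 6, 7, 8, 9] : Fin 15 → Fin 10) e = k then
      (1 : ZMod 2) else 0) +
    (if (![1, 2, 3, 4, 0, 5, 6, 7, 8, 9, 7, 8, 9, 5, 6] : Fin 15 → Fin 10) e = k then 1 else 0)) =
    ∑ j : Fin 3, (if pe k j = e then 1 else 0) := by
  decide +kernel

open Pool.Agent.H160R2.CC Pool.Agent.H160R2.CC.MGraph

theorem pet_flow (φ : Fin 15 → ZMod 2) (h : petersen.Flow φ) (k : Fin 10) :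
    φ (pe k 0) + φ (pe k 1) + φ (pe k 2) = 0 := by
  have h1 := h k
  have h2 : petersen.bd φ k = ∑ e : Fin 15, (∑ j : Fin 3, (if pe k j = e then 1 else 0)) * φ e := by
    refine Finset.sum_congr rfl fun e _ => ?_
    rw [← pet_inc k e]
    rfl
  rw [h2] at h1
  have h3 : ∀ e : Fin 15, (∑ j : Fin 3, (if pe k j = e then (1 : ZMod 2) else 0)) * φ e =
      ∑ j : Fin 3, (if pe k j = e then φ e else 0) := by
    intro e
    rw [Finset.sum_mul]
    refine Finset.sum_congr rfl fun j _ => ?_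
    split_ifs <;> simp
  rw [Finset.sum_congr rfl (fun e _ => h3 e), Finset.sum_comm] at h1
  rw [← h1, Fin.sum_univ_three]
  simp

/-- the value of a cycle on a code -/
def lamN (φ : Fin 15 → ZMod 2) (n : ℕ) : ZMod 2 :=
  (bif n.testBit 0 then φ 2 else 0) + (bif n.testBit 1 then φ 7 else 0) +
    (bif n.testBit 2 then φ 8 else 0) + (bif n.testBit 3 then φ 11 else 0) +
    (bif n.testBit 4 then φ 12 else 0) + (bif n.testBit 5 then φ 14 else 0)

theorem bif_add (p q : Bool) (c : ZMod 2) :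
    (bif (p ^^ q) then c else 0) = (bif p then c else 0) + (bif q then c else 0) := by
  revert p q c
  decide

/-- the value of a cycle on a code, as a map of groups -/
def lam (φ : Fin 15 → ZMod 2) : G →+ ZMod 2 where
  toFun x := lamN φ x.v
  map_zero' := by
    change (0 : ZMod 2) + 0 + 0 + 0 + 0 + 0 = 0
    ring
  map_add' x y := by
    rw [G.v_add]
    unfold lamN
    simp only [Nat.testBit_xor, bif_add]
    ring

theorem lam_ec (φ : Fin 15 → ZMod 2) (h0 : petersen.Flow φ) (e : Fin 15) :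
    lamN φ (ec e) = φ e := by
  have h : ∀ k : Fin 10, φ (pe k 0) + φ (pe k 1) + φ (pe k 2) = 0 := pet_flow φ h0
  have h2 : (2 : ZMod 2) = 0 := rfl
  have g0 : φ 0 + φ 4 + φ 5 = 0 := h 0
  have g1 : φ 1 + φ 0 + φ 6 = 0 := h 1
  have g2 : φ 2 + φ 1 + φ 7 = 0 := h 2
  have g3 : φ 3 + φ 2 + φ 8 = 0 := h 3
  have g4 : φ 4 + φ 3 + φ 9 = 0 := h 4
  have g5 : φ 10 + φ 13 + φ 5 = 0 := h 5
  have g6 : φ 11 + φ 14 + φ 6 = 0 := h 6
  have g7 : φ 12 + φ 10 + φ 7 = 0 := h 7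
  have g8 : φ 13 + φ 11 + φ 8 = 0 := h 8
  have g9 : φ 14 + φ 12 + φ 9 = 0 := h 9
  fin_cases e
  · change φ 2 + φ 7 + 0 + φ 11 + 0 + φ 14 = φ 0
    linear_combination g1 + g2 + g6 + (-(φ 0) - φ 1 - φ 6) * h2
  · change φ 2 + φ 7 + 0 + 0 + 0 + 0 = φ 1
    linear_combination g2 + (-(φ 1)) * h2
  · change φ 2 + 0 + 0 + 0 + 0 + 0 = φ 2
    ring
  · change φ 2 + 0 + φ 8 + 0 + 0 + 0 = φ 3
    linear_combination g3 + (-(φ 3)) * h2
  · change φ 2 + 0 + φ 8 + 0 + φ 12 + φ 14 = φ 4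
    linear_combination g3 + g4 + g9 + (-(φ 4) - φ 3 - φ 9) * h2
  · change 0 + φ 7 + φ 8 + φ 11 + φ 12 + 0 = φ 5
    linear_combination g5 + g7 + g8 + (-(φ 5) - φ 10 - φ 13) * h2
  · change 0 + 0 + 0 + φ 11 + 0 + φ 14 = φ 6
    linear_combination g6 + (-(φ 6)) * h2
  · change 0 + φ 7 + 0 + 0 + 0 + 0 = φ 7
    ring
  · change 0 + 0 + φ 8 + 0 + 0 + 0 = φ 8
    ring
  · change 0 + 0 + 0 + 0 + φ 12 + φ 14 = φ 9
    linear_combination g9 + (-(φ 9)) * h2
  · change 0 + φ 7 + 0 + 0 + φ 12 + 0 = φ 10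
    linear_combination g7 + (-(φ 10)) * h2
  · change 0 + 0 + 0 + φ 11 + 0 + 0 = φ 11
    ring
  · change 0 + 0 + 0 + 0 + φ 12 + 0 = φ 12
    ring
  · change 0 + 0 + φ 8 + φ 11 + 0 + 0 = φ 13
    linear_combination g8 + (-(φ 13)) * h2
  · change 0 + 0 + 0 + 0 + 0 + φ 14 = φ 14
    ring

/-- **flows with values among the codes give cycle-continuous maps** -/
theorem succ_of_flow (K : MGraph) (h : FlowOn Ag K.src K.tgt ∅ ∅) : Succ K petersen := by
  obtain ⟨f, h1, _, h2⟩ := h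
  have h3 : ∀ e, ∃ x : Fin 15, ec x = (f e).v := fun e =>
    dec (f e).v (f e).h (h2 e (notMem_empty _) (notMem_empty _))
  choose g hg using h3
  refine succ_iff.2 ⟨g, fun φ hφ v => ?_⟩
  have h4 := congrArg (lam φ) (h1 v)
  rw [map_zero, ← Pool.Agent.R890.FF.bd_hom] at h4
  rw [← h4]
  unfold MGraph.bd MGraph.inc Pool.Agent.TH676.A.bd
  refine Finset.sum_congr rfl fun e _ => ?_
  have h5 : lam φ (f e) = φ (g e) := by
    change lamN φ (f e).v = φ (g e)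
    rw [← hg e]
    exact lam_ec φ hφ (g e)
  change ((if K.src e = v then (1 : ZMod 2) else 0) + (if K.tgt e = v then 1 else 0)) * φ (g e) =
    (if K.src e = v then lam φ (f e) else 0) + (if K.tgt e = v then lam φ (f e) else 0)
  rw [h5]
  split_ifs <;> ring

end Pool.Agent.R545.PC
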