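import Pool.Agent.R545.IN.Main
import Pool.Agent.R545.PC.Grp

set_option autoImplicit false
set_option linter.unusedSectionVars false
set_option synthInstance.maxHeartbeats 400000
set_option synthInstance.maxSize 2048

/-!
# Flows with allowed values for graphs in which seven vertices are never far from each other
-/

namespace Pool.Agent.R545.PC

open Finset Pool.Agent.TH362.TF Pool.Agent.TH362.TF.Four Pool.Agent.R890.FF Pool.Agent.R545.IN
open Pool.Agent.TH676.A (Alg FlowOn)

variable {V E : Type} [Fintype V] [DecidableEq V] [DecidableEq E]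

/-- Seven different vertices which are not isolated include two which are close. -/
def Cl (s t : E → V) : Prop :=
  ∀ x : Fin 7 → V, Function.Injective x → (∀ i, ∃ e, s e = x i ∨ t e = x i) →
    ∃ i j, i ≠ j ∧ Close s t (x i) (x j)

theorem ends_map {s t : E → V} (π : V → V) {u w : V} {e : E} (hE : Ends s t u w e) :
    Ends (fun e => π (s e)) (fun e => π (t e)) (π u) (π w) e := by
  rcases hE with ⟨h2, h3⟩ | ⟨h2, h3⟩
  · exact Or.inl ⟨congrArg π h2, congrArg π h3⟩
  · exact Or.inr ⟨congrArg π h2, congrArg π h3⟩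

/-- the class is closed under the identification of vertices -/
theorem cl_map (s t : E → V) (π : V → V) (h : Cl s t) :
    Cl (fun e => π (s e)) (fun e => π (t e)) := by
  intro x hx hn
  have h1 : ∀ i, ∃ y, π y = x i ∧ ∃ e, s e = y ∨ t e = y := by
    intro i
    obtain ⟨e, he | he⟩ := hn i
    · exact ⟨s e, he, e, Or.inl rfl⟩
    · exact ⟨t e, he, e, Or.inr rfl⟩
  choose y hy hn' using h1
  obtain ⟨i, j, hij, hc⟩ := h y (fun i j hij => hx (by rw [← hy i, ← hy j, hij])) hn'
  refine ⟨i, j, hij, ?_⟩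
  rw [← hy i, ← hy j]
  rcases hc with ⟨e, hE⟩ | ⟨e, f, e', f', a, b, hne, E1, E2, E3, E4⟩
  · exact Or.inl ⟨e, ends_map π hE⟩
  · exact Or.inr ⟨e, f, e', f', π a, π b, hne, ends_map π E1, ends_map π E2, ends_map π E3,
      ends_map π E4⟩

/-- **graphs in which among any seven vertices, not isolated, two are close** -/
theorem seven' [Fintype E] (s t : E → V) (h7 : Cl s t) (h1 : N1 s t univ) :
    NZ s t univ ∨ PQ s t univ := by
  classical
  by_contra hc
  rw [not_or] at hc
  obtain ⟨π, hM⟩ := exists_Mq s t univ h1 hc.1 hc.2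
  obtain ⟨I, hIc, hnb, hi⟩ := Mq_ind7 hM
  set φ := (Finset.equivFinOfCardEq hIc).symm with hφ
  obtain ⟨i, j, hij, hcl⟩ := cl_map s t π h7 (fun i => (φ i : V))
    (fun i j hij => φ.injective (Subtype.ext hij)) (by
      intro i
      obtain ⟨z, _, e, _, hE⟩ := hnb _ (φ i).2
      rcases hE with ⟨h2, _⟩ | ⟨_, h2⟩
      · exact ⟨e, Or.inl h2⟩
      · exact ⟨e, Or.inr h2⟩)
  have hXY : (φ i : V) ≠ φ j := fun h2 => hij (φ.injective (Subtype.ext h2))
  have hno : ¬ Nb (fun e => π (s e)) (fun e => π (t e)) univ (φ i : V) (φ j) :=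
    hi _ (φ i).2 _ (φ j).2
  rcases hcl with ⟨e, hE⟩ | ⟨e, f, e', f', a, b, hne, E1, E2, E3, E4⟩
  · exact hno ⟨hXY.symm, e, mem_univ _, hE⟩
  · have mid : ∀ (e f : E) (a : V), Ends (fun e => π (s e)) (fun e => π (t e)) (φ i : V) a e →
        Ends (fun e => π (s e)) (fun e => π (t e)) a (φ j : V) f →
        a ≠ (φ i : V) ∧ a ≠ (φ j : V) := by
      intro e f a k1 k2
      refine ⟨fun k3 => ?_, fun k3 => ?_⟩
      · rw [k3] at k2
        exact hno ⟨hXY.symm, f, mem_univ _, k2⟩
      · rw [k3] at k1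
        exact hno ⟨hXY.symm, e, mem_univ _, k1⟩
    obtain ⟨A1, A2⟩ := mid e f a E1 E2
    obtain ⟨B1, B2⟩ := mid e' f' b E3 E4
    by_cases hab : a = b
    · subst hab
      have k3 := hM.nopar A1.symm (mem_univ e) (mem_univ e') E1 E3
      have k4 := hM.nopar A2 (mem_univ f) (mem_univ f') E2 E4
      rcases hne with hne | hne
      · exact hne k3
      · exact hne k4
    · exact hM.four (a := (φ i : V)) (b := a) (c := (φ j : V)) (d := b) hXY hab
        ⟨A1, e, mem_univ _, E1⟩ ⟨A2.symm, f, mem_univ _, E2⟩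
        (nb_comm ⟨B2.symm, f', mem_univ _, E4⟩)
        (nb_comm ⟨B1, e', mem_univ _, E3⟩)

variable {Γ : Type} [AddCommGroup Γ] {A : Γ → Prop}

/-- flows with allowed values -/
theorem alg_seven [Fintype E] (hA : Alg A) {val : Fin 10 → Fin 10 → Γ} (hv : Pet A val)
    (h4 : ∃ σ : F →+ Γ, ∀ x, x ≠ 0 → A (σ x)) (s t : E → V) (hN : N1 s t univ) (h7 : Cl s t) :
    FlowOn A s t ∅ ∅ :=
  alg_class hA hv h4 (Cl := Cl) (fun s t π h => cl_map s t π h)
    (fun s t h1 h2 => seven' s t h1 h2) _ s t rfl h7 hN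

open Pool.Agent.H160R2.CC Pool.Agent.H160R2.CC.MGraph

theorem n1_of_cut (K : MGraph) (hB : ¬ K.HasCutEdge) : N1 K.src K.tgt univ := by
  intro x h
  obtain ⟨e, he⟩ := card_eq_one.mp h
  refine hB ⟨univ.filter (fun v => x v = true), e, fun e' => ?_⟩
  rw [← mem_singleton, ← he]
  simp only [cut, mem_filter, mem_univ, true_and]
  cases x (K.src e') <;> cases x (K.tgt e') <;> simp

/-- **maps to the Petersen graph**: seven vertices are never far from each other -/
theorem succ_seven (K : MGraph) (hB : ¬ K.HasCutEdge) (h7 : Cl K.src K.tgt) :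
    Succ K petersen :=
  succ_of_flow K (alg_seven algPC petPC ⟨emb, emb_A⟩ K.src K.tgt (n1_of_cut K hB) h7)

/-- **maps to the Petersen graph**: nine vertices cover all edges -/
theorem succ_cover (K : MGraph) (hB : ¬ K.HasCutEdge) (C : Finset K.V)
    (hC : ∀ e, K.src e ≠ K.tgt e → K.src e ∈ C ∨ K.tgt e ∈ C) (h9 : C.card ≤ 9) :
    Succ K petersen :=
  succ_of_flow K (alg_cover algPC petPC ⟨emb, emb_A⟩ K.src K.tgt C (n1_of_cut K hB) hC h9)

end Pool.Agent.R545.PC
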